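import Pool.Agent.K1H49.PL.Gen

/-! Two lemmas for piece EXN of project PL, general case (helper49). -/

set_option autoImplicit false

namespace Pool.Agent.K1H72.PLG

open Pool.Agent.K1H49.PL

theorem ext {a N : ℕ} (haN : a ≤ N) (E : LN a → Nd) (hE : Pt ndl a E) :
    ∃ E' : LN N → Nd, Pt ndl N E' ∧ ∀ (η : Nd) (h : η.length ≤ a),
      E' ⟨η, h.trans haN⟩ = E ⟨η, h⟩ := by
  refine ⟨fun η => E ⟨η.1.take a, by rw [List.length_take]; exact min_le_left _ _⟩ ++ η.1.drop a,
    ?_, ?_⟩
  · intro η η' d h
    obtain ⟨r, hr⟩ := h
    unfold ndl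
    beta_reduce
    by_cases hl : η.1.length < a
    · have h1 : η.1.take a = η.1 := List.take_of_length_le hl.le
      have h2 : η.1.drop a = [] := List.drop_of_length_le hl.le
      have h3 : (η.1.take a ++ [d]) <+: η'.1.take a := by
        rw [h1]
        rw [List.prefix_take_iff]
        exact ⟨⟨r, hr⟩, by rw [List.length_append, List.length_singleton]; omega⟩
      have h4 := hE ⟨η.1.take a, by rw [List.length_take]; exact min_le_left _ _⟩
        ⟨η'.1.take a, by rw [List.length_take]; exact min_le_left _ _⟩ d h3
      rw [h2, List.append_nil]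
      exact List.IsPrefix.trans h4 (List.prefix_append _ _)
    · have hl' : a ≤ η.1.length := not_lt.1 hl
      have h1 : η'.1.take a = η.1.take a := by
        rw [← hr, List.append_assoc, List.take_append_of_le_length hl']
      have h2 : η'.1.drop a = η.1.drop a ++ ([d] ++ r) := by
        rw [← hr, List.append_assoc, List.drop_append_of_le_length hl']
      refine ⟨r, ?_⟩
      simp only [h1, h2, List.append_assoc]
  · intro η h
    have h1 : η.take a = η := List.take_of_length_le h
    have h2 : η.drop a = [] := List.drop_of_length_le h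
    simp only [h1, h2, List.append_nil]

open Classical in
theorem pat {I : Type} {lt : Bool → I → I → Prop} (hB : BT lt) {π : I} {C0 C1 : Nd → I}
    (h0 : Cpy lt C0) (h0' : ∀ p, lt false π (C0 p)) (h1 : Cpy lt C1) (h1' : ∀ p, lt true π (C1 p))
    {n : ℕ} {E0 : LN n → I} (hE0 : Pt lt n E0) {e0 e1 : LN n → Nd} (he0 : Pt ndl n e0)
    (he1 : Pt ndl n e1) :
    Pt lt n (fun η => if lt false π (E0 η) then C0 (e0 η) else
      if lt true π (E0 η) then C1 (e1 η) else E0 η) := by
  intro η η' d h
  have hlt := hE0 η η' d h
  have irr : ∀ (b : Bool) (x : I), ¬ lt b x x := fun b x hx =>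
    (hB.wf.irrefl.irrefl x) ⟨b, hx⟩
  have asym : ∀ (b b' : Bool) (x y : I), lt b x y → ¬ lt b' y x := fun b b' x y hx hy =>
    irr b x (hB.trans hx hy)
  -- the position of the second point is determined by the first one
  have out : ∀ b : Bool, lt b π (E0 η) → lt b π (E0 η') := fun b hb => hB.trans hb hlt
  -- a point outside both cones
  have key : ∀ (b : Bool) (c : I), ¬ lt false π (E0 η) → ¬ lt true π (E0 η) → lt b π (E0 η') →
      lt b π c → lt d (E0 η) c := by
    intro b c hf ht hb hc
    rcases hB.lin hlt hb with h2 | ⟨e, h2⟩ | ⟨e, h2⟩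
    · rw [h2] at hlt ⊢
      rw [hB.uniq hlt hb]
      exact hc
    · have h3 : e = d := hB.uniq (hB.trans h2 hb) hlt
      rw [← h3]
      exact hB.trans h2 hc
    · cases e
      · exact absurd h2 hf
      · exact absurd h2 ht
  show lt d (if lt false π (E0 η) then C0 (e0 η) else
      if lt true π (E0 η) then C1 (e1 η) else E0 η) (if lt false π (E0 η') then C0 (e0 η') else
      if lt true π (E0 η') then C1 (e1 η') else E0 η')
  by_cases hf : lt false π (E0 η)
  · rw [if_pos hf, if_pos (out false hf)]
    exact h0 _ _ d (he0 η η' d h)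
  · rw [if_neg hf]
    by_cases ht : lt true π (E0 η)
    · have h5 : ¬ lt false π (E0 η') := fun h6 => by
        have := hB.uniq h6 (out true ht)
        exact absurd this (by decide)
      rw [if_pos ht, if_neg h5, if_pos (out true ht)]
      exact h1 _ _ d (he1 η η' d h)
    · rw [if_neg ht]
      by_cases hf' : lt false π (E0 η')
      · rw [if_pos hf']
        exact key false _ hf ht hf' (h0' _)
      · rw [if_neg hf']
        by_cases ht' : lt true π (E0 η')
        · rw [if_pos ht']
          exact key true _ hf ht ht' (h1' _)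
        · rw [if_neg ht']
          exact hlt

end Pool.Agent.K1H72.PLG
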