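import Pool.Agent.K1H49.PL.Gen
import Pool.Agent.K1H72.PLG.Sub

/-! Piece EXN of project PL, general case (helper49). -/

set_option autoImplicit false

namespace Pool.Agent.K1H72.PLG

open Pool.Agent.K1H49.PL

universe u

/-- the values of the long tree and of the family as one tuple -/
def VV {M : Type u} {ι K I : Type} (w : I → ι → M) (s : K → Nd → ι → M) :
    (I × ι) ⊕ (K × Nd × ι) → M :=
  Sum.elim (fun p => w p.1 p.2) (fun p => s p.1 p.2.1 p.2.2)

theorem VV_eta {M : Type u} {ι K I : Type} (v : (I × ι) ⊕ (K × Nd × ι) → M) :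
    VV (fun π i => v (Sum.inl (π, i))) (fun k ν i => v (Sum.inr (k, ν, i))) = v := by
  funext z
  rcases z with ⟨π, i⟩ | ⟨k, ν, i⟩ <;> rfl

/-- the conditions for patterns in a finite set of positions -/
def RzP {M : Type u} (Y : Sys M) {X ι K I : Type} (lt : Bool → I → I → Prop) (x : X → M)
    (t : Option K → Nd → ι → M) {a : ℕ} {dg : K → ℕ} (F : FF M X ι K I a dg) (P : Finset I)
    (w : I → ι → M) (s : K → Nd → ι → M) : Prop :=
  (∀ n S, Y.D S → HK x t n S → ∀ (E0 : LN n → I) (E : K → LN n → Nd), Pt lt n E0 →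
    (∀ k, Pt ndl n (E k)) → (∀ η, E0 η ∈ P) →
    Sum.elim x (fun p => p.1.elim (w (E0 p.2.1) p.2.2) (fun k => s k (E k p.2.1) p.2.2)) ∈ S) ∧
  ∀ q ∈ F, ∀ (E0 : LN a → I) (E : ∀ k, LN (dg k) → Nd), Pt lt a E0 → (∀ k, Pt ndl _ (E k)) →
    (∀ η, E0 η ∈ P) → E0 (rt a) = q.1 → ∀ S ∈ q.2, tpx x w s E0 E ∈ S

theorem RzP.mono {M : Type u} {Y : Sys M} {X ι K I : Type} {lt : Bool → I → I → Prop} {x : X → M}
    {t : Option K → Nd → ι → M} {a : ℕ} {dg : K → ℕ} {F : FF M X ι K I a dg} {P P' : Finset I}
    (h : P ⊆ P') {w : I → ι → M} {s : K → Nd → ι → M} (hR : RzP Y lt x t F P' w s) :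
    RzP Y lt x t F P w s :=
  ⟨fun n S h1 h2 E0 E h3 h4 h5 => hR.1 n S h1 h2 E0 E h3 h4 (fun η => h (h5 η)),
    fun q hq E0 E h3 h4 h5 => hR.2 q hq E0 E h3 h4 (fun η => h (h5 η))⟩

theorem cpt {M : Type u} (Y : Sys M) (hsat : SatP Y) {X ι K I : Type}
    (lt : Bool → I → I → Prop) (x : X → M) (t : Option K → Nd → ι → M) {a : ℕ} {dg : K → ℕ}
    (F : FF M X ι K I a dg) (htp : ∀ q ∈ F, Tps Y q.2)
    (h : ∀ P : Finset I, ∃ w s, RzP Y lt x t F P w s) : ∃ w s, Rz Y lt x t F w s := by
  classical
  let Γ : Set (Set (X ⊕ ((I × ι) ⊕ (K × Nd × ι)) → M)) :=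
    {T | Y.D T ∧ ∃ P : Finset I, ∀ w s, RzP Y lt x t F P w s → Sum.elim x (VV w s) ∈ T}
  obtain ⟨v, hv⟩ := hsat X ((I × ι) ⊕ (K × Nd × ι)) x Γ (fun S hS => hS.1) (by
    intro Δ hΔ
    have h1 : ∀ T : Set (X ⊕ ((I × ι) ⊕ (K × Nd × ι)) → M), ∃ P : Finset I, T ∈ Δ →
        ∀ w s, RzP Y lt x t F P w s → Sum.elim x (VV w s) ∈ T := by
      intro T
      by_cases hT : T ∈ Δ
      · obtain ⟨P, hP⟩ := (hΔ T hT).2
        exact ⟨P, fun _ => hP⟩
      · exact ⟨∅, fun h => absurd h hT⟩
    choose g hg using h1
    obtain ⟨w, s, hR⟩ := h (Δ.biUnion g)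
    exact ⟨VV w s, fun T hT => hg T hT w s (hR.mono (Finset.subset_biUnion_of_mem g hT))⟩)
  have hfin : ∀ (n : ℕ) (E0 : LN n → I), ∃ P : Finset I, ∀ η, E0 η ∈ P := by
    intro n E0
    haveI : Finite (LN n) := (List.finite_length_le Bool n).to_subtype
    refine ⟨(Set.finite_range E0).toFinset, fun η => ?_⟩
    simp
  refine ⟨fun π i => v (Sum.inl (π, i)), fun k ν i => v (Sum.inr (k, ν, i)), ?_, ?_⟩
  · intro n S hS hH E0 E hE0 hE
    obtain ⟨P, hP⟩ := hfin n E0
    let j : X ⊕ (Option K × LN n × ι) → X ⊕ ((I × ι) ⊕ (K × Nd × ι)) :=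
      Sum.elim Sum.inl (fun p => p.1.elim (Sum.inr (Sum.inl (E0 p.2.1, p.2.2)))
        (fun k => Sum.inr (Sum.inr (k, E k p.2.1, p.2.2))))
    have hj : ∀ (w : I → ι → M) (s : K → Nd → ι → M), (Sum.elim x (VV w s)) ∘ j =
        Sum.elim x (fun p => p.1.elim (w (E0 p.2.1) p.2.2) (fun k => s k (E k p.2.1) p.2.2)) := by
      intro w s
      funext z
      rcases z with z | ⟨o, η, i⟩
      · rfl
      · cases o <;> rfl
    have hT : {u | u ∘ j ∈ S} ∈ Γ := ⟨Y.pull j hS, P, fun w s hR => by
      change Sum.elim x (VV w s) ∘ j ∈ S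
      rw [hj]
      exact hR.1 n S hS hH E0 E hE0 hE hP⟩
    have h3 : (Sum.elim x v) ∘ j ∈ S := hv _ hT
    rw [← VV_eta v, hj] at h3
    exact h3
  · rintro q hq E0 E hE0 hE hrt S hS
    obtain ⟨P, hP⟩ := hfin a E0
    have hD : Y.D S := by
      obtain ⟨v0, hv0⟩ := htp q hq
      have hS' := hS
      rw [hv0] at hS'
      exact hS'.1
    let j : X ⊕ ((Σ k, LN (dgo a dg k)) × ι) → X ⊕ ((I × ι) ⊕ (K × Nd × ι)) :=
      Sum.elim Sum.inl (fun p => match p with
        | (⟨none, η⟩, i) => Sum.inr (Sum.inl (E0 η, i))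
        | (⟨some k, η⟩, i) => Sum.inr (Sum.inr (k, E k η, i)))
    have hj : ∀ (w : I → ι → M) (s : K → Nd → ι → M), (Sum.elim x (VV w s)) ∘ j =
        tpx x w s E0 E := by
      intro w s
      funext z
      rcases z with z | ⟨⟨o, η⟩, i⟩
      · rfl
      · cases o <;> rfl
    have hT : {u | u ∘ j ∈ S} ∈ Γ := ⟨Y.pull j hD, P, fun w s hR => by
      change Sum.elim x (VV w s) ∘ j ∈ S
      rw [hj]
      exact hR.2 q hq E0 E hE0 hE hP hrt S hS⟩
    have h3 : (Sum.elim x v) ∘ j ∈ S := hv _ hT
    rw [← VV_eta v, hj] at h3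
    exact h3

/-- the family of trees below the two cones -/
def TT {M : Type u} {ι K I : Type} (w : I → ι → M) (s : K → Nd → ι → M) (C0 C1 : Nd → I) :
    Option (Option K) → Nd → ι → M
  | none => fun ν => w (C0 ν)
  | some none => fun ν => w (C1 ν)
  | some (some k) => s k

open Classical in
/-- the long tree -/
noncomputable def ww {M : Type u} {ι K I : Type} (lt : Bool → I → I → Prop) (π : I)
    (w : I → ι → M) (g : I → Nd) (U : Option (Option K) → Nd → ι → M) (ρ : I) : ι → M :=
  if lt false π ρ then U none (g ρ) else if lt true π ρ then U (some none) (g ρ) else w ρ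

open Classical in
/-- substitution, homogeneous conditions -/
noncomputable def j1 {X ι K I : Type} (lt : Bool → I → I → Prop) (π : I) {n : ℕ} (E0 : LN n → I) :
    X ⊕ (Option K × LN n × ι) → (X ⊕ (I × ι)) ⊕ (Option (Option K) × LN n × ι)
  | Sum.inl a => Sum.inl (Sum.inl a)
  | Sum.inr (none, η, i) => if lt false π (E0 η) then Sum.inr (none, η, i) else
      if lt true π (E0 η) then Sum.inr (some none, η, i) else Sum.inl (Sum.inr (E0 η, i))
  | Sum.inr (some k, η, i) => Sum.inr (some (some k), η, i)

open Classical in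
/-- substitution, types -/
noncomputable def j2 {X ι K I : Type} (lt : Bool → I → I → Prop) (π : I) {a N : ℕ} {dg : K → ℕ}
    (ha : a ≤ N) (hd : ∀ k, dg k ≤ N) (E0 : LN a → I) :
    X ⊕ ((Σ k, LN (dgo a dg k)) × ι) → (X ⊕ (I × ι)) ⊕ (Option (Option K) × LN N × ι)
  | Sum.inl z => Sum.inl (Sum.inl z)
  | Sum.inr (⟨none, η⟩, i) => if lt false π (E0 η) then Sum.inr (none, ⟨η.1, η.2.trans ha⟩, i) else
      if lt true π (E0 η) then Sum.inr (some none, ⟨η.1, η.2.trans ha⟩, i) else
      Sum.inl (Sum.inr (E0 η, i))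
  | Sum.inr (⟨some k, η⟩, i) => Sum.inr (some (some k), ⟨η.1, η.2.trans (hd k)⟩, i)

/-- substitution, the new type -/
def j3 {X ι K I : Type} (π : I) {m : ℕ} {dg : K → ℕ} :
    X ⊕ ((Σ k, LN (dgo (m + 1) dg k)) × ι) →
      (X ⊕ (I × ι)) ⊕ ((Σ k, LN (dgo m (dgo m dg) k)) × ι)
  | Sum.inl z => Sum.inl (Sum.inl z)
  | Sum.inr (⟨none, ⟨[], _⟩⟩, i) => Sum.inl (Sum.inr (π, i))
  | Sum.inr (⟨none, ⟨false :: η, h⟩⟩, i) =>
      Sum.inr (⟨none, ⟨η, Nat.le_of_succ_le_succ h⟩⟩, i)
  | Sum.inr (⟨none, ⟨true :: η, h⟩⟩, i) =>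
      Sum.inr (⟨some none, ⟨η, Nat.le_of_succ_le_succ h⟩⟩, i)
  | Sum.inr (⟨some k, η⟩, i) => Sum.inr (⟨some (some k), η⟩, i)

theorem t_EXN : S_EXN.{u} := by
  classical
  intro M Y hsat _ X ι K I _ _ lt hB x t m dg hPH F hF π hπ hlow
  obtain ⟨w, s, hR⟩ := hF.cons
  obtain ⟨C0, hC0, hC0'⟩ := hB.cp π false
  obtain ⟨C1, hC1, hC1'⟩ := hB.cp π true
  have irr : ∀ (b : Bool) (z : I), ¬ lt b z z := fun b z hz => hB.wf.irrefl.irrefl z ⟨b, hz⟩
  obtain ⟨U, hU1, hU2⟩ := hPH (X ⊕ (I × ι)) (Sum.elim x (fun p => w p.1 p.2)) (TT w s C0 C1)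
  -- the new type
  set vid : (X ⊕ (I × ι)) ⊕ ((Σ k, LN (dgo m (dgo m dg) k)) × ι) → M :=
    tpl (Sum.elim x (fun p : I × ι => w p.1 p.2)) U (fun k η => η.1) with hvid
  set θ : Set (Set (X ⊕ ((Σ k, LN (dgo (m + 1) dg k)) × ι) → M)) :=
    {S | Y.D S ∧ vid ∘ j3 π ∈ S} with hθ
  refine ⟨θ, ?_, ?_, ?_, ?_⟩
  · rintro q hq q' hq' h
    rcases hq with rfl | hq <;> rcases hq' with rfl | hq'
    · rfl
    · exact absurd (show (π, q'.2) ∈ F by rw [show (π, q'.2) = q' from Prod.ext h rfl]; exact hq')
        (hπ _)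
    · exact absurd (show (π, q.2) ∈ F by
        rw [show (π, q.2) = q from Prod.ext (h.symm) rfl]; exact hq) (hπ _)
    · exact hF.fn q hq q' hq' h
  · rintro q hq
    rcases hq with rfl | hq
    · exact ⟨vid ∘ j3 π, rfl⟩
    · exact hF.tp q hq
  · rintro q hq ρ d h
    rcases hq with rfl | hq
    · obtain ⟨θ', h'⟩ := hlow ρ d h
      exact ⟨θ', Or.inr h'⟩
    · obtain ⟨θ', h'⟩ := hF.dn q hq ρ d h
      exact ⟨θ', Or.inr h'⟩
  · apply cpt Y hsat
    · rintro q hq
      rcases hq with rfl | hq
      · exact ⟨vid ∘ j3 π, rfl⟩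
      · exact hF.tp q hq
    intro P
    obtain ⟨g, hg⟩ := hB.fe P
    refine ⟨ww lt π w g U, fun k => U (some (some k)), ?_, ?_⟩
    · -- homogeneous conditions
      intro n S hS hH E0 E hE0 hE hP
      have hgE : Pt ndl n (fun η => g (E0 η)) := fun η η' d h =>
        hg _ (hP η) _ (hP η') d (hE0 η η' d h)
      have h1 : HK (Sum.elim x (fun p : I × ι => w p.1 p.2)) (TT w s C0 C1) n
          {v | v ∘ j1 lt π E0 ∈ S} := by
        intro E'' hE''
        have h2 := hR.1 n S hS hH (fun η => if lt false π (E0 η) then C0 (E'' none η) else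
          if lt true π (E0 η) then C1 (E'' (some none) η) else E0 η)
          (fun k => E'' (some (some k))) (pat hB hC0 hC0' hC1 hC1' hE0 (hE'' _) (hE'' _))
          (fun k => hE'' _)
        show _ ∘ j1 lt π E0 ∈ S
        convert h2 using 1
        funext z
        rcases z with z | ⟨o, η, i⟩
        · rfl
        · cases o with
          | none =>
            by_cases hf : lt false π (E0 η)
            · simp [j1, hf, TT]
            · by_cases ht : lt true π (E0 η)
              · simp [j1, hf, ht, TT]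
              · simp [j1, hf, ht, TT]
          | some k => rfl
      have h3 := hU1 n _ (Y.pull (j1 lt π E0) hS) h1 (fun o => match o with
        | none => fun η => g (E0 η)
        | some none => fun η => g (E0 η)
        | some (some k) => E k) (by
          intro o
          rcases o with _ | _ | k
          · exact hgE
          · exact hgE
          · exact hE k)
      have h4 : Sum.elim (Sum.elim x (fun p : I × ι => w p.1 p.2)) _ ∘ j1 lt π E0 ∈ S := h3
      convert h4 using 1
      funext z
      rcases z with z | ⟨o, η, i⟩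
      · rfl
      · cases o with
        | none =>
          by_cases hf : lt false π (E0 η)
          · simp [j1, hf, ww]
          · by_cases ht : lt true π (E0 η)
            · simp [j1, hf, ht, ww]
            · simp [j1, hf, ht, ww]
        | some k => rfl
    · rintro q hq E0 E hE0 hE hP hrt S hS
      have hgE : Pt ndl (m + 1) (fun η => g (E0 η)) := fun η η' d h =>
        hg _ (hP η) _ (hP η') d (hE0 η η' d h)
      rcases hq with rfl | hq
      · -- the new type
        have hrt' : E0 (rt (m + 1)) = π := hrt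
        obtain ⟨hD, hv⟩ : Y.D S ∧ vid ∘ j3 π ∈ S := hS
        have h5 := hU2 _ (Y.pull (j3 π) hD) (fun k η => η.1) (fun o => match o with
          | none => fun η => g (E0 ⟨false :: η.1, Nat.succ_le_succ η.2⟩)
          | some none => fun η => g (E0 ⟨true :: η.1, Nat.succ_le_succ η.2⟩)
          | some (some k) => E k) (fun k η η' d h => h) (by
            intro o
            rcases o with _ | _ | k
            · intro η η' d h
              obtain ⟨r, hr⟩ := h
              exact hgE _ _ d ⟨r, by
                show (false :: η.1 ++ [d]) ++ r = false :: η'.1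
                rw [← hr]; rfl⟩
            · intro η η' d h
              obtain ⟨r, hr⟩ := h
              exact hgE _ _ d ⟨r, by
                show (true :: η.1 ++ [d]) ++ r = true :: η'.1
                rw [← hr]; rfl⟩
            · exact hE k) hv
        have h6 : tpl (Sum.elim x (fun p : I × ι => w p.1 p.2)) U _ ∘ j3 π ∈ S := h5
        convert h6 using 1
        funext z
        rcases z with z | ⟨⟨o, η⟩, i⟩
        · rfl
        · cases o with
          | none =>
            obtain ⟨η, hη⟩ := η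
            match η, hη with
            | [], hη =>
              have e1 : E0 ⟨[], hη⟩ = π := hrt'
              show ww lt π w g U (E0 ⟨[], hη⟩) i = w π i
              rw [e1]
              unfold ww
              rw [if_neg (irr _ _), if_neg (irr _ _)]
            | false :: η, hη =>
              have e1 : lt false π (E0 ⟨false :: η, hη⟩) := by
                rw [← hrt']
                exact hE0 (rt (m + 1)) ⟨false :: η, hη⟩ false ⟨η, rfl⟩
              show ww lt π w g U (E0 ⟨false :: η, hη⟩) i = U none (g (E0 ⟨false :: η, _⟩)) i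
              unfold ww
              rw [if_pos e1]
            | true :: η, hη =>
              have e1 : lt true π (E0 ⟨true :: η, hη⟩) := by
                rw [← hrt']
                exact hE0 (rt (m + 1)) ⟨true :: η, hη⟩ true ⟨η, rfl⟩
              have e2 : ¬ lt false π (E0 ⟨true :: η, hη⟩) := fun h7 =>
                absurd (hB.uniq h7 e1) (by decide)
              show ww lt π w g U (E0 ⟨true :: η, hη⟩) i = U (some none) (g (E0 ⟨true :: η, _⟩)) i
              unfold ww
              rw [if_neg e2, if_pos e1]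
          | some k => rfl
      · -- the old types
        have hD : Y.D S := by
          obtain ⟨v0, hv0⟩ := hF.tp q hq
          have hS' := hS
          rw [hv0] at hS'
          exact hS'.1
        have hnc : ∀ d, ¬ lt d π q.1 := fun d h => by
          obtain ⟨θ', h'⟩ := hF.dn q hq π d h
          exact hπ _ h'
        obtain ⟨N0, hN0⟩ := (Set.finite_range dg).bddAbove
        have hd : ∀ k, dg k ≤ max N0 (m + 1) := fun k =>
          (hN0 (Set.mem_range_self k)).trans (le_max_left _ _)
        have ha : m + 1 ≤ max N0 (m + 1) := le_max_right _ _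
        obtain ⟨G, hG, hG'⟩ := ext ha _ hgE
        choose EE hEE hEE' using fun k => ext (hd k) (E k) (hE k)
        have h1 : HK (Sum.elim x (fun p : I × ι => w p.1 p.2)) (TT w s C0 C1) (max N0 (m + 1))
            {v | v ∘ j2 lt π ha hd E0 ∈ S} := by
          intro E'' hE''
          have h2 := hR.2 q hq (fun η => if lt false π (E0 η) then
            C0 (E'' none ⟨η.1, η.2.trans ha⟩) else
            if lt true π (E0 η) then C1 (E'' (some none) ⟨η.1, η.2.trans ha⟩) else E0 η)
            (fun k η => E'' (some (some k)) ⟨η.1, η.2.trans (hd k)⟩)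
            (pat hB hC0 hC0' hC1 hC1' hE0 (e0 := fun η : LN (m + 1) =>
              E'' none ⟨η.1, η.2.trans ha⟩) (e1 := fun η : LN (m + 1) =>
              E'' (some none) ⟨η.1, η.2.trans ha⟩)
              (fun η η' d h => hE'' none _ _ d h) (fun η η' d h => hE'' (some none) _ _ d h))
            (fun k η η' d h => hE'' (some (some k)) _ _ d h)
            (by
              show (if lt false π (E0 (rt (m + 1))) then _ else
                if lt true π (E0 (rt (m + 1))) then _ else E0 (rt (m + 1))) = q.1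
              rw [hrt, if_neg (hnc _), if_neg (hnc _)]) S hS
          show _ ∘ j2 lt π ha hd E0 ∈ S
          convert h2 using 1
          funext z
          rcases z with z | ⟨⟨o, η⟩, i⟩
          · rfl
          · cases o with
            | none =>
              by_cases hf : lt false π (E0 η)
              · simp [j2, hf, TT, tpx]
              · by_cases ht : lt true π (E0 η)
                · simp [j2, hf, ht, TT, tpx]
                · simp [j2, hf, ht, TT, tpx]
            | some k => rfl
        have h3 := hU1 _ _ (Y.pull (j2 lt π ha hd E0) hD) h1 (fun o => match o with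
          | none => G
          | some none => G
          | some (some k) => EE k) (by
            intro o
            rcases o with _ | _ | k
            · exact hG
            · exact hG
            · exact hEE k)
        have h4 : Sum.elim (Sum.elim x (fun p : I × ι => w p.1 p.2)) _ ∘ j2 lt π ha hd E0 ∈ S := h3
        convert h4 using 1
        funext z
        rcases z with z | ⟨⟨o, η⟩, i⟩
        · rfl
        · cases o with
          | none =>
            have e5 := hG' η.1 η.2
            by_cases hf : lt false π (E0 η)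
            · simp [j2, hf, ww, tpx, e5]
              rfl
            · by_cases ht : lt true π (E0 η)
              · simp [j2, hf, ht, ww, tpx, e5]
                rfl
              · simp [j2, hf, ht, ww, tpx]
          | some k =>
            have e5 := hEE' k η.1 η.2
            simp [j2, tpx, e5]
            rfl

end Pool.Agent.K1H72.PLG
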